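import Mathlib
import Pool.Agent.Results.MP_987215_an.PointwiseFails

set_option autoImplicit false

open Polynomial ComplexConjugate

namespace Pool.Agent.Results.MP_987215_an.OriginFails

open Pool.Agent.Results.MP_987215_an.PointwiseFails

noncomputable section

/-- The failure is quantitative: at the origin, for `n = 2`, `k = 1`, the error of `z³/6` at the
nodes `a ± b i` is `|3a² - b²| / 6` while the asserted supremum is `a`. -/
lemma err (a b C : ℝ) (hb : b ≠ 0) (ha : 0 < a) (hC : C * a < (b ^ 2 - 3 * a ^ 2) / 6) :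
    ∃ (g : ℂ → ℂ) (p : ℂ[X]), InClass 2 g ∧ IsHermiteInterpolant (pair a b) g p ∧
      C * (‖(derivative^[1] (nodal (pair a b))).eval 0‖ / (2).factorial) <
        ‖iteratedDeriv 1 g 0 - (derivative^[1] p).eval 0‖ := by
  refine ⟨gtest, ptest a b, gtest_inClass, ptest_interpolant a b hb, ?_⟩
  rw [deriv_ptest, deriv_nodal, iteratedDeriv_gtest]
  have e1 : ((0:ℂ) ^ 2 / 2 - (((3 * a ^ 2 - b ^ 2) / 6 : ℝ) : ℂ))
      = (((b ^ 2 - 3 * a ^ 2) / 6 : ℝ) : ℂ) := by
    push_cast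
    ring
  have e2 : (2 * (0:ℂ) - ((2 * a : ℝ) : ℂ)) = ((-(2 * a) : ℝ) : ℂ) := by
    push_cast
    ring
  rw [e1, e2, Complex.norm_real, Complex.norm_real, Real.norm_eq_abs, Real.norm_eq_abs, abs_neg,
    abs_of_pos (by linarith : 0 < 2 * a)]
  refine lt_of_lt_of_le ?_ (le_abs_self _)
  have : C * (2 * a / ((2).factorial : ℝ)) = C * a := by
    norm_num [Nat.factorial]
  rw [this]
  exact hC

lemma pair_props (a b : ℝ) (ha : 0 < a) (hab : a ^ 2 + b ^ 2 ≤ 1) (j : Fin 2) :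
    ‖pair a b j‖ ≤ 1 ∧ 0 < (pair a b j).re := by
  have hn : ∀ c : ℝ, a ^ 2 + c ^ 2 ≤ 1 → ‖(⟨a, c⟩ : ℂ)‖ ≤ 1 := by
    intro c hc
    rw [Complex.norm_def, Complex.normSq_mk]
    apply Real.sqrt_le_one.2
    nlinarith
  fin_cases j
  · exact ⟨hn _ hab, ha⟩
  · exact ⟨hn _ (by rw [neg_sq]; exact hab), ha⟩

/-- Disproof of Q2: at the evaluation point `0` the asserted equality fails for self-conjugate
lists in the closed unit disc with positive real parts, already for `n = 2`, `k = 1`; and no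
inequality with a constant factor in front of `|f^(k)(0)| / n!` can replace it. -/
theorem result :
    (¬ ∀ (n k : ℕ), 1 ≤ n → k ≤ n - 1 → ∀ z : Fin n → ℂ, SelfConjugate z → (∀ j, ‖z j‖ ≤ 1) →
      (∀ j, 0 ≤ (z j).re) → EqualityAt n k z 0) ∧
    ∀ C : ℝ, ∃ z : Fin 2 → ℂ, SelfConjugate z ∧ (∀ j, ‖z j‖ ≤ 1 ∧ 0 < (z j).re) ∧
      ∃ (g : ℂ → ℂ) (p : ℂ[X]), InClass 2 g ∧ IsHermiteInterpolant z g p ∧
        C * (‖(derivative^[1] (nodal z)).eval 0‖ / (2).factorial) <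
          ‖iteratedDeriv 1 g 0 - (derivative^[1] p).eval 0‖ := by
  have key : ∀ C : ℝ, ∃ z : Fin 2 → ℂ, SelfConjugate z ∧ (∀ j, ‖z j‖ ≤ 1 ∧ 0 < (z j).re) ∧
      ∃ (g : ℂ → ℂ) (p : ℂ[X]), InClass 2 g ∧ IsHermiteInterpolant z g p ∧
        C * (‖(derivative^[1] (nodal z)).eval 0‖ / (2).factorial) <
          ‖iteratedDeriv 1 g 0 - (derivative^[1] p).eval 0‖ := by
    intro C
    have hpos : (0:ℝ) < 1 / (100 * (|C| + 1)) := by positivity
    have hle : 1 / (100 * (|C| + 1)) ≤ (1/100 : ℝ) := by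
      rw [div_le_div_iff₀ (by positivity) (by norm_num)]
      nlinarith [abs_nonneg C]
    refine ⟨pair (1 / (100 * (|C| + 1))) (1/2), pair_selfConjugate _ _ (by norm_num),
      fun j => pair_props _ _ hpos (by nlinarith) j, err _ _ _ (by norm_num) hpos ?_⟩
    have h1 : C * (1 / (100 * (|C| + 1))) ≤ 1/100 := by
      rw [mul_one_div, div_le_div_iff₀ (by positivity) (by norm_num)]
      nlinarith [le_abs_self C]
    nlinarith
  refine ⟨fun H => ?_, key⟩
  obtain ⟨z, hz, hz1, g, p, hg, hp, hlt⟩ := key 1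
  have h := (H 2 1 (by norm_num) (by norm_num) z hz (fun j => (hz1 j).1)
    (fun j => (hz1 j).2.le)).1 ⟨g, p, hg, hp, rfl⟩
  rw [one_mul] at hlt
  exact absurd h (not_le.2 hlt)

end

end Pool.Agent.Results.MP_987215_an.OriginFails
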